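import Pool.Agent.Helper55.AR.Defs

/-! Existence of the continuous chain. -/

set_option autoImplicit false

open Cardinal Ordinal Set Filter Helper23.Pcf Helper55.CP Helper55.AR

universe u

namespace Helper23.AR

theorem mu_inf (T : Sys.{u}) : ℵ₀ ≤ T.μ :=
  (T.hν.1.trans ((Order.le_succ _).trans (Order.le_succ _))).trans T.hνμ

theorem mk_singleton_le {μ : Cardinal.{u}} (hμ : ℵ₀ ≤ μ) (x : Ordinal.{u}) :
    #({x} : Set Ordinal.{u}) ≤ Cardinal.lift.{u+1} μ := by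
  rw [Cardinal.mk_singleton]
  exact Cardinal.one_le_aleph0.trans (Cardinal.aleph0_le_lift.2 hμ)

/-- one step of the chain -/
theorem step_exists (T : Sys.{u}) (e e' : Ordinal.{u} → Ordinal.{u} → Ordinal.{u})
    {M : Set Ordinal.{u}} (hM : #M ≤ Cardinal.lift.{u+1} T.μ) :
    ∃ M' : Set Ordinal.{u}, M ⊆ M' ∧ #M' ≤ Cardinal.lift.{u+1} T.μ ∧
      (∀ x ∈ M, ∀ y ∈ M, e x y ∈ M' ∧ e' x y ∈ M') ∧
      (∀ ξ ∈ M, ∀ q i, T.f q ξ i ∈ M') ∧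
      (∀ q, chi M (T.lam q).ord ∈ M') ∧
      (∀ q, ∃ ξ ∈ M', ξ < (T.lam q).ord ∧
        ∀ ζ, ξ ≤ ζ → ζ < (T.lam q).ord → ∀ D, HasCof D (fun i => (T.c i).ord) (T.lam q) →
          dlt D (fun i => chi M (T.c i).ord) (T.f q ζ)) := by
  classical
  have hμ := mu_inf T
  have hμ' : ℵ₀ ≤ Cardinal.lift.{u+1} T.μ := Cardinal.aleph0_le_lift.2 hμ
  have hι : #T.ι ≤ T.μ :=
    T.hι.le.trans (((Order.le_succ _).trans (Order.le_succ _)).trans T.hνμ)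
  have hd : ∀ q, ∃ ξ < (T.lam q).ord, ∀ η, ξ ≤ η → η < (T.lam q).ord →
      ∀ D, HasCof D (fun i => (T.c i).ord) (T.lam q) →
        dlt D (fun i => chi M (T.c i).ord) (T.f q η) := fun q =>
    T.f_dom q (fun i => chi M (T.c i).ord) fun i =>
      chi_lt (T.reg i) (hM.trans_lt (Cardinal.lift_lt.2 (T.hc i)))
  choose w hw1 hw2 using hd
  refine ⟨M ∪ ((⋃ x : M, ⋃ y : M, ({e x.1 y.1} ∪ {e' x.1 y.1} : Set Ordinal.{u})) ∪
    ((⋃ x : M, ⋃ q : T.Q, ⋃ i : T.ι, ({T.f q x.1 i} : Set Ordinal.{u})) ∪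
    ((⋃ q : T.Q, ({chi M (T.lam q).ord} : Set Ordinal.{u})) ∪
      ⋃ q : T.Q, ({w q} : Set Ordinal.{u})))), subset_union_left, ?_, ?_, ?_, ?_, ?_⟩
  · refine (Cardinal.mk_union_le _ _).trans (Cardinal.add_le_of_le hμ' hM ?_)
    refine (Cardinal.mk_union_le _ _).trans (Cardinal.add_le_of_le hμ' ?_ ?_)
    · exact mk_iUnion_small hμ _ hM fun x => mk_iUnion_small hμ _ hM fun y =>
        (Cardinal.mk_union_le _ _).trans (Cardinal.add_le_of_le hμ' (mk_singleton_le hμ _)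
          (mk_singleton_le hμ _))
    refine (Cardinal.mk_union_le _ _).trans (Cardinal.add_le_of_le hμ' ?_ ?_)
    · exact mk_iUnion_small hμ _ hM fun x => mk_iUnion_small' hμ _ T.hQ fun q =>
        mk_iUnion_small' hμ _ hι fun i => mk_singleton_le hμ _
    refine (Cardinal.mk_union_le _ _).trans (Cardinal.add_le_of_le hμ' ?_ ?_)
    · exact mk_iUnion_small' hμ _ T.hQ fun q => mk_singleton_le hμ _
    · exact mk_iUnion_small' hμ _ T.hQ fun q => mk_singleton_le hμ _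
  · intro x hx y hy
    constructor
    · exact Or.inr (Or.inl (mem_iUnion.2 ⟨⟨x, hx⟩, mem_iUnion.2 ⟨⟨y, hy⟩, Or.inl rfl⟩⟩))
    · exact Or.inr (Or.inl (mem_iUnion.2 ⟨⟨x, hx⟩, mem_iUnion.2 ⟨⟨y, hy⟩, Or.inr rfl⟩⟩))
  · intro ξ hξ q i
    exact Or.inr (Or.inr (Or.inl (mem_iUnion.2 ⟨⟨ξ, hξ⟩, mem_iUnion.2 ⟨q,
      mem_iUnion.2 ⟨i, rfl⟩⟩⟩)))
  · intro q
    exact Or.inr (Or.inr (Or.inr (Or.inl (mem_iUnion.2 ⟨q, rfl⟩))))
  · intro q
    exact ⟨w q, Or.inr (Or.inr (Or.inr (Or.inr (mem_iUnion.2 ⟨q, rfl⟩)))), hw1 q, hw2 q⟩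

/-- A: the chain -/
theorem ach_exists (T : Sys.{u}) (e e' : Ordinal.{u} → Ordinal.{u} → Ordinal.{u})
    {X : Set Ordinal.{u}} (hX : #X ≤ Cardinal.lift.{u+1} T.μ) :
    ∃ N, X ⊆ N 0 ∧ ACh T e e' N := by
  classical
  have hμ := mu_inf T
  have hμ' : ℵ₀ ≤ Cardinal.lift.{u+1} T.μ := Cardinal.aleph0_le_lift.2 hμ
  have hch : ∀ M : Set Ordinal.{u}, ∃ M' : Set Ordinal.{u}, #M ≤ Cardinal.lift.{u+1} T.μ →
      M ⊆ M' ∧ #M' ≤ Cardinal.lift.{u+1} T.μ ∧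
      (∀ x ∈ M, ∀ y ∈ M, e x y ∈ M' ∧ e' x y ∈ M') ∧
      (∀ ξ ∈ M, ∀ q i, T.f q ξ i ∈ M') ∧
      (∀ q, chi M (T.lam q).ord ∈ M') ∧
      (∀ q, ∃ ξ ∈ M', ξ < (T.lam q).ord ∧
        ∀ ζ, ξ ≤ ζ → ζ < (T.lam q).ord → ∀ D, HasCof D (fun i => (T.c i).ord) (T.lam q) →
          dlt D (fun i => chi M (T.c i).ord) (T.f q ζ)) := by
    intro M
    by_cases hM : #M ≤ Cardinal.lift.{u+1} T.μ
    · obtain ⟨M', hM'⟩ := step_exists T e e' hM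
      exact ⟨M', fun _ => hM'⟩
    · exact ⟨∅, fun h => absurd h hM⟩
  choose st hst using hch
  have hB : #(X ∪ Iio T.μ.ord : Set Ordinal.{u}) ≤ Cardinal.lift.{u+1} T.μ := by
    refine (Cardinal.mk_union_le _ _).trans (Cardinal.add_le_of_le hμ' hX ?_)
    rw [Cardinal.mk_Iio_ordinal, Cardinal.card_ord]
  set B : Set Ordinal.{u} := X ∪ Iio T.μ.ord with hBdef
  have hcard : ∀ ε < (Order.succ T.μ).ord, #(iterSt st B ε) ≤ Cardinal.lift.{u+1} T.μ := by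
    intro ε
    induction ε using WellFoundedLT.induction with
    | ind ε ih =>
      intro hε
      rw [iterSt_eq]
      refine (Cardinal.mk_union_le _ _).trans (Cardinal.add_le_of_le hμ' hB ?_)
      refine mk_iUnion_small hμ _ ?_ fun η => ?_
      · rw [Cardinal.mk_Iio_ordinal]
        refine Cardinal.lift_le.2 ?_
        exact Order.lt_succ_iff.1 (Cardinal.lt_ord.1 hε)
      · exact (hst _ (ih η.1 η.2 (lt_trans η.2 hε))).2.1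
  have hsub : ∀ η ε, η < ε → st (iterSt st B η) ⊆ iterSt st B ε := fun η ε h z hz =>
    mem_iterSt.2 (Or.inr ⟨η, h, hz⟩)
  refine ⟨iterSt st B, fun z hz => mem_iterSt.2 (Or.inl (Or.inl hz)),
    ⟨fun ε z hz => mem_iterSt.2 (Or.inl (Or.inr hz)), fun η ε h z hz => ?_,
    fun ε hε z hz => ?_, hcard, fun η ε h hε x hx y hy => ?_, fun η ε h hε ξ hξ q i => ?_,
    fun η ε h hε q => ?_, fun η ε h hε q => ?_⟩⟩
  · rcases mem_iterSt.1 hz with h1 | ⟨ζ, h1, h2⟩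
    · exact mem_iterSt.2 (Or.inl h1)
    · exact mem_iterSt.2 (Or.inr ⟨ζ, h1.trans_le h, h2⟩)
  · rcases mem_iterSt.1 hz with h1 | ⟨ζ, h1, h2⟩
    · exact ⟨0, hε.bot_lt, mem_iterSt.2 (Or.inl h1)⟩
    · exact ⟨Order.succ ζ, hε.succ_lt h1, hsub _ _ (Order.lt_succ ζ) h2⟩
  · have h1 := (hst _ (hcard η (h.trans hε))).2.2.1 x hx y hy
    exact ⟨hsub _ _ h h1.1, hsub _ _ h h1.2⟩
  · exact hsub _ _ h ((hst _ (hcard η (h.trans hε))).2.2.2.1 ξ hξ q i)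
  · exact hsub _ _ h ((hst _ (hcard η (h.trans hε))).2.2.2.2.1 q)
  · obtain ⟨ξ, h1, h2, h3⟩ := (hst _ (hcard η (h.trans hε))).2.2.2.2.2 q
    exact ⟨ξ, hsub _ _ h h1, h2, h3⟩

end Helper23.AR
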