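import Pool.Agent.Helper23.Pcf.Run

/-! The elements of the pcf of the end segment of `a_α` are at most `ℵ_ lam.ord` if the pcf has
fewer than `lam` elements. -/

set_option autoImplicit false

open Cardinal Ordinal Set Filter Helper23.Pcf

universe u

namespace Helper23.AR

/-- D -/
theorem pcf_elem_le {α γ₁ : Ordinal.{u}} (_hα : Order.IsSuccLimit α) (hγ : α.card = ℵ_ γ₁)
    (hlt : γ₁ < α) {lam : Cardinal.{u}} (hlam : #(pcf (aSet α)) < Cardinal.lift.{u+1} lam)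
    (hlam' : α.card < lam) :
    ∀ l ∈ pcfS (ival (ℵ_ (γ₁ + (6 : ℕ))) (ℵ_ α)), l ≤ ℵ_ lam.ord := by
  classical
  intro l hl
  by_contra hcon
  push Not at hcon
  have h0 : ℵ₀ ≤ α.card := by rw [hγ]; exact Cardinal.aleph0_le_aleph _
  have hlam0 : ℵ₀ ≤ lam := h0.trans hlam'.le
  have hγlam : γ₁.card < lam := (Ordinal.card_le_card hlt.le).trans_lt hlam'
  have hsub : ival (ℵ_ (γ₁ + (6 : ℕ))) (ℵ_ α) ⊆ aSet α := by
    rw [aSet_eq hγ]
    intro κ h
    exact ⟨h.1, lt_of_le_of_lt (Cardinal.aleph_le_aleph.2 le_self_add) h.2.1, h.2.2⟩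
  have hk : #(ival (ℵ_ (γ₁ + (6 : ℕ))) (ℵ_ α)) ≤
      Cardinal.lift.{u+1} (ℵ_ (γ₁ + (6 : ℕ))) := by
    refine (mk_le_card' (x := α) (y := γ₁ + (6 : ℕ)) fun κ h => ⟨h.2.1, h.2.2⟩).trans
      (Cardinal.lift_le.2 ?_)
    refine (Ordinal.card_le_card (Ordinal.sub_le_self _ _)).trans ?_
    rw [hγ]
    exact Cardinal.aleph_le_aleph.2 le_self_add
  have hidx : ∀ ξ < lam.ord, γ₁ + (6 : ℕ) + ξ + 1 < lam.ord := by
    intro ξ hξ
    rw [Cardinal.lt_ord] at hξ ⊢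
    rw [Ordinal.card_add, Ordinal.card_add, Ordinal.card_add, Ordinal.card_nat, Ordinal.card_one]
    refine Cardinal.add_lt_of_lt hlam0 (Cardinal.add_lt_of_lt hlam0
      (Cardinal.add_lt_of_lt hlam0 hγlam ?_) hξ) ?_
    · exact Cardinal.natCast_lt_aleph0.trans_le hlam0
    · exact Cardinal.one_lt_aleph0.trans_le hlam0
  have hcard : #(Set.Iio lam.ord) = Cardinal.lift.{u+1} lam := by
    rw [Cardinal.mk_Iio_ordinal, Cardinal.card_ord]
  refine absurd hlam (not_lt.2 ?_)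
  rw [← hcard, pcf_aSet]
  refine Cardinal.mk_le_of_injective (f := fun ξ : Set.Iio lam.ord =>
    (⟨ℵ_ (γ₁ + (6 : ℕ) + ξ.1 + 1), ?_⟩ : pcfS (aSet α))) ?_
  · refine pcfS_mono hsub ?_
    refine nohole rfl hk (Cardinal.aleph0_le_aleph _) hl (Cardinal.isRegular_aleph_add_one _) ?_ ?_
    · rw [Cardinal.aleph_lt_aleph]
      exact lt_of_le_of_lt le_self_add (Order.lt_add_one_iff.2 le_rfl)
    · exact ((Cardinal.aleph_lt_aleph.2 (hidx ξ.1 ξ.2)).trans hcon).le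
  · intro ξ ξ' h
    have h4 := Cardinal.aleph.injective (Subtype.mk.inj h)
    have h5 : γ₁ + (6 : ℕ) + ξ.1 = γ₁ + (6 : ℕ) + ξ'.1 :=
      Order.succ_injective (by rw [Order.succ_eq_add_one, Order.succ_eq_add_one]; exact h4)
    exact Subtype.ext (add_left_cancel h5)

end Helper23.AR
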